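import Pool.Agent.J6H80.BG.HcM
import Pool.Agent.J6H80.BG.ConM
import Pool.Agent.J6H47.BG.SU
import Pool.Agent.J6H35.BG.NB
import Pool.Agent.J6H3.BG.GMU
import Pool.Agent.J6H53.BG.TU
import Pool.Agent.J6H92.BG.HC

/-!
# A lower bound on the condensate depletion of the dilute Bose gas, for all potentials of the problem

Setting: the model of the problem. `N` particles of mass `m` in the periodic box of side `ℓ`, density
`ρ = N / ℓ ^ 3`, with a hard core of radius `R₀ ≥ 0` and the pair interaction `v ≥ 0`, `v` integrable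
and even. Here `R₀ > 0` or `∫ v > 0`.

Positions are written in the rescaled variable `y = x / ℓ`, so that an `N`-particle state is a
function `ψ : Cfg N → ℂ` on `(ℝ³/ℤ³)^N`, with normalised Haar measure. With
`ψ = ∑_M (coef ψ M) e^{2πi ∑_j M_j · y_j}`,

* `kinE q ψ = ∑_M (∑_j q |M_j|²) |coef ψ M|²`,
* `hcPot R₀ v x` is `∞` for `|x| < R₀` and `v x` for `|x| ≥ R₀`,
* `perE V ℓ` is the periodisation of `V` on the box of side `ℓ` (in the variable `y`),
* `potE W ψ = ∫ ∑_{i<j} W (y_i - y_j) |ψ|²` (with `∞ · 0 = 0`),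
* `kinE ((1 / 2m) (2π/ℓ)²) ψ + potE (perE (hcPot R₀ v) ℓ) ψ` is the quadratic form of the Hamiltonian
  `H_N` of the problem (`∞` outside the form domain: `ψ` has to vanish where two particles have a
  distance less than `R₀`),
* `occE ψ P = ∑_M #{j | P M_j} |coef ψ M|²` is the expected number of particles whose momentum
  label satisfies `P`; for `P n ↔ n = 0` it is `∑_j ⟨ψ, P_j ψ⟩`, the number of particles in the
  condensate,
* `scatH m R₀ v` is the infimum of `∫ ((1/m) |∇ f|² + v f²)` over the smooth `f : ℝ³ → ℝ` equal to one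
  outside a bounded set and zero for `|x| < R₀`, and `scatLenH m R₀ v = (m / 4π) scatH m R₀ v` is the
  scattering length `a`.

For every state with energy at most `(2π a ρ / m) (1 + λ √(ρ a³)) N`, at small density in the
thermodynamic limit, let `N_≤` and `N_>` be the expected numbers of particles with a momentum
`p = 2π n / ℓ` such that `0 < |p|² ≤ M ρ a` and `|p|² > M ρ a`. Then
`N_≤ ≥ ((√(8π y) - λ) / (2 (y + 1 + 1/(4y))) - ε) √(ρ a³) N + κ √M N_>`, for every `y > 0` and
all large `M`; `κ` does not depend on `M` and `ρ`. So the state has at least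
`((√(8π y) - λ) / (2 (y + 1 + 1/(4y))) - ε) √(ρ a³) N` particles outside the condensate, and
the particles with momenta of order `√(ρ a)` alone are that many. The
constant is positive for large `y`, whatever `λ` is. For the value `λ = 128 / (15 √π)` of Lee,
Huang and Yang (the ground state is known to satisfy the assumption with any larger `λ` for
`v ∈ L³` of compact support, `R₀ = 0`) and `y = 11/2` the constant is `0.530`, more than one third of
the conjectured value `8 / (3 √π) = 1.504`. For hard spheres the ground state is known to satisfy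
the assumption with some `λ`.

Proof: with the operators `P` (condensate) and `Q = 1 - P` and the two-body scattering solution with
the additional energy `μ = y ρ g`, `g = 4π a / m`, the square of the potential energy is completed in
each pair of particles; the pair terms are bounded by the number of excited particles. This gives
`H_N + L N_≤ - s N_> ≥ ½ g(μ) N² / ℓ³ - error` with `L = μ + (ρ g)² / (4 μ) + ρ g` and `s` a small
multiple of `√M ρ g`, and the scattering energy is expanded up to the second order,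
`g(μ) = g + (g² π² / P₀) √μ + o(√μ)`. The hard core is approximated by integrable potentials `w`
below, which depend on `ρ`; the estimates are uniform in `w`, since the two-body minimiser is
nonnegative in the limit of infinitely many modes (`pos_lim`).

Proof modules by several authors: the library `Pool.Agent.H751R2.LHY` (see there), `J6H80.BG`, and
`J6H3.BG`, `J6H17.BG`, `J6H35.BG`, `J6H47.BG`, `J6H48.BG`, `J6H53.BG`, `J6H70.BG`, `J6H76.BG`,
`J6H92.BG`.
-/

set_option autoImplicit false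

open MeasureTheory UnitAddTorus
open scoped ENNReal

namespace Pool.Agent.Results.MP_4952d6_mp.DepletionConstant

open Pool.Agent.H751R2.LHY Pool.Agent.H751R2.LHY.G80 Pool.Agent.J6H80.BG

/-- **Lower bound on the depletion with an explicit constant, by low momenta.** -/
theorem result (m : ℝ) (hm : 0 < m) (R₀ : ℝ) (hR₀ : 0 ≤ R₀) (v : (Fin 3 → ℝ) → ℝ)
    (hvm : Measurable v) (hv : Integrable v) (h0 : ∀ x, 0 ≤ v x) (he : ∀ x, v (-x) = v x)
    (hg : 0 < R₀ ∨ 0 < ∫ x, v x) (lam y ε : ℝ) (hlam : 0 ≤ lam) (hy : 0 < y) (hε : 0 < ε) :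
    0 < scatLenH m R₀ v ∧
    ∃ κ M₀ ρ₀ : ℝ, 0 < κ ∧ 0 < M₀ ∧ 0 < ρ₀ ∧ ∀ ρ : ℝ, 0 < ρ → ρ ≤ ρ₀ → ∀ M : ℝ, M₀ ≤ M →
      ∃ N₀ : ℕ, ∀ N : ℕ, N₀ ≤ N → ∀ ℓ : ℝ, 0 < ℓ → (N : ℝ) = ρ * ℓ ^ 3 →
      ∀ ψ : Cfg N → ℂ, MemLp ψ 2 → ∫ x, ‖ψ x‖ ^ 2 = 1 →
      kinE (1 / (2 * m) * (2 * Real.pi / ℓ) ^ 2) ψ + potE (perE (hcPot R₀ v) ℓ) ψ ≤
        ENNReal.ofReal (2 * Real.pi * scatLenH m R₀ v * ρ / m *
          (1 + lam * √(ρ * scatLenH m R₀ v ^ 3)) * N) →
      ((√(8 * Real.pi * y) - lam) / (2 * (y + 1 + 1 / (4 * y))) - ε) *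
          √(ρ * scatLenH m R₀ v ^ 3) * N +
        κ * √M * (occE ψ (fun n =>
          M * ρ * scatLenH m R₀ v < (2 * Real.pi / ℓ) ^ 2 * ∑ a, (n a : ℝ) ^ 2)).toReal ≤
        (occE ψ (fun n =>
          n ≠ 0 ∧ (2 * Real.pi / ℓ) ^ 2 * ∑ a, (n a : ℝ) ^ 2 ≤ M * ρ * scatLenH m R₀ v)).toReal ∧
      ((√(8 * Real.pi * y) - lam) / (2 * (y + 1 + 1 / (4 * y))) - ε) *
        √(ρ * scatLenH m R₀ v ^ 3) * N ≤ N - (occE ψ (fun n => n = 0)).toReal := by
  obtain ⟨ha, κ, M₀, ρ₀, hκ, hM₀, hρ₀, h⟩ := hardM Pool.Agent.J6H47.BG.su Pool.Agent.J6H53.BG.tu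
    (Pool.Agent.J6H3.BG.t_GMU Pool.Agent.J6H35.BG.t_NB) Pool.Agent.J6H92.BG.hc hm hR₀ hvm hv h0 he
    hg hlam hy hε
  refine ⟨ha, κ, M₀, ρ₀, hκ, hM₀, hρ₀, fun ρ hρ hρρ M hM => ?_⟩
  obtain ⟨N₀, h1⟩ := h ρ hρ hρρ M hM
  refine ⟨N₀, fun N hN ℓ hℓ hNℓ ψ hψ hψ1 hE => ?_⟩
  exact concl hψ hψ1 (mul_nonneg hκ.le (Real.sqrt_nonneg M)) (h1 N hN ℓ hℓ hNℓ ψ hψ hψ1 hE)

end Pool.Agent.Results.MP_4952d6_mp.DepletionConstant
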