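import Pool.Agent.J6H80.BG.HcM
import Pool.Agent.J6H80.BG.ConM
import Pool.Agent.J6H47.BG.SU
import Pool.Agent.J6H35.BG.NB
import Pool.Agent.J6H3.BG.GMU
import Pool.Agent.J6H53.BG.TU
import Pool.Agent.J6H35.BG.UP
import Pool.Agent.J6H8.BG.EU

/-!
# An explicit lower bound on the condensate depletion in the ground state of the dilute Bose gas

Setting: the model of the problem without hard core. `N` particles of mass `m` in the periodic box
of side `ℓ`, density `ρ = N / ℓ ^ 3`, pair interaction `v ≥ 0`, `v` integrable, even and not zero.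

Positions are written in the rescaled variable `y = x / ℓ`, so that an `N`-particle state is a
function `ψ : Cfg N → ℂ` on `(ℝ³/ℤ³)^N`, with normalised Haar measure. With
`ψ = ∑_M (coef ψ M) e^{2πi ∑_j M_j · y_j}`,

* `kinE q ψ = ∑_M (∑_j q |M_j|²) |coef ψ M|²`,
* `perPot v ℓ` is the periodisation of `v` on the box of side `ℓ` (in the variable `y`),
* `potE W ψ = ∫ ∑_{i<j} W (y_i - y_j) |ψ|²`,
* `kinE ((1 / 2m) (2π/ℓ)²) ψ + potE (perPot v ℓ) ψ` is the quadratic form of the Hamiltonian `H_N`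
  of the problem (`∞` outside the form domain),
* `occE ψ P = ∑_M #{j | P M_j} |coef ψ M|²` is the expected number of particles whose momentum
  label satisfies `P`; for `P n ↔ n = 0` it is `∑_j ⟨ψ, P_j ψ⟩`, the number of particles in the
  condensate,
* `scatG m v` is the infimum of `∫ ((1/m) |∇ f|² + v f²)` over the smooth `f : ℝ³ → ℝ` equal to one
  outside a bounded set, and `scatLen m v = (m / 4π) scatG m v` is the scattering length `a`.

Let `N_≤` and `N_>` be the expected numbers of particles with a momentum `p = 2π n / ℓ` such that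
`0 < |p|² ≤ M ρ a` and `|p|² > M ρ a`. Every state whose energy exceeds the infimum by at most
`c ρ^{3/2} N`, in particular the ground state, satisfies
`N_≤ ≥ ((√(8π y) - 2 √(m ∫ v / a)) / (2 (y + 1 + 1/(4y))) - ε) √(ρ a³) N + κ √M N_>`
for every `y > 0` and all large `M`, at small density in the thermodynamic limit; `κ` and `c` do not
depend on `M` and `ρ`. So it has at least
`((√(8π y) - 2 √(m ∫ v / a)) / (2 (y + 1 + 1/(4y))) - ε) √(ρ a³) N` particles outside the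
condensate, and the particles with momenta of order `√(ρ a)` alone are that many. The
constant is positive for large `y` and depends on `v` only through `m ∫ v / a ≥ 4π`: for weak
potentials (`m ∫ v / a` near `4π`) and `y = 19/2` it is `0.397`, more than a quarter of the
conjectured value `8 / (3 √π) = 1.504`.

Proof: the upper bound `inf H_N ≤ ½ ρ (g + (g² π² / P₀ + ε) √(2 ρ ∫ v)) N`, `g = 4π a / m`, from
quasi-free states built on the scattering solution, is put into the bound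
`H_N + L N_≤ - s N_> ≥ ½ g(μ) N² / ℓ³ - error` of `J6H80.BG.UnivM`.

Proof modules by several authors: the library `Pool.Agent.H751R2.LHY` (see there), `J6H80.BG`, and
`J6H3.BG`, `J6H8.BG`, `J6H17.BG`, `J6H35.BG`, `J6H47.BG`, `J6H48.BG`, `J6H53.BG`, `J6H70.BG`,
`J6H76.BG`, `J6H92.BG`.
-/

set_option autoImplicit false

open MeasureTheory UnitAddTorus
open scoped ENNReal

namespace Pool.Agent.Results.MP_4952d6_mp.GroundStateDepletion

open Pool.Agent.H751R2.LHY Pool.Agent.H751R2.LHY.G80 Pool.Agent.J6H80.BG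

/-- **Lower bound on the depletion in the ground state with an explicit constant, by low
momenta.** -/
theorem result (m : ℝ) (hm : 0 < m) (v : (Fin 3 → ℝ) → ℝ)
    (hvm : Measurable v) (hv : Integrable v) (h0 : ∀ x, 0 ≤ v x) (he : ∀ x, v (-x) = v x)
    (hV : 0 < ∫ x, v x) (y ε : ℝ) (hy : 0 < y) (hε : 0 < ε) :
    0 < scatLen m v ∧
    ∃ c κ M₀ ρ₀ : ℝ, 0 < c ∧ 0 < κ ∧ 0 < M₀ ∧ 0 < ρ₀ ∧
      ∀ ρ : ℝ, 0 < ρ → ρ ≤ ρ₀ → ∀ M : ℝ, M₀ ≤ M →
      ∃ N₀ : ℕ, ∀ N : ℕ, N₀ ≤ N → ∀ ℓ : ℝ, 0 < ℓ → (N : ℝ) = ρ * ℓ ^ 3 →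
      ∀ ψ : Cfg N → ℂ, MemLp ψ 2 → ∫ x, ‖ψ x‖ ^ 2 = 1 →
      (∀ φ : Cfg N → ℂ, MemLp φ 2 → ∫ x, ‖φ x‖ ^ 2 = 1 →
        kinE (1 / (2 * m) * (2 * Real.pi / ℓ) ^ 2) ψ + potE (perPot v ℓ) ψ ≤
          kinE (1 / (2 * m) * (2 * Real.pi / ℓ) ^ 2) φ + potE (perPot v ℓ) φ +
            ENNReal.ofReal (c * (ρ * √ρ) * N)) →
      ((√(8 * Real.pi * y) - 2 * √(m * (∫ x, v x) / scatLen m v)) /
          (2 * (y + 1 + 1 / (4 * y))) - ε) * √(ρ * scatLen m v ^ 3) * N +
        κ * √M * (occE ψ (fun n =>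
          M * ρ * scatLen m v < (2 * Real.pi / ℓ) ^ 2 * ∑ a, (n a : ℝ) ^ 2)).toReal ≤
        (occE ψ (fun n =>
          n ≠ 0 ∧ (2 * Real.pi / ℓ) ^ 2 * ∑ a, (n a : ℝ) ^ 2 ≤ M * ρ * scatLen m v)).toReal ∧
      ((√(8 * Real.pi * y) - 2 * √(m * (∫ x, v x) / scatLen m v)) /
          (2 * (y + 1 + 1 / (4 * y))) - ε) *
        √(ρ * scatLen m v ^ 3) * N ≤ N - (occE ψ (fun n => n = 0)).toReal := by
  refine ⟨?_, ?_⟩
  · have h1 := scatG_pos Pool.Agent.J6H47.BG.su hm hvm hv h0 he hV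
    have h2 := Real.pi_pos
    rw [scatLen]
    positivity
  obtain ⟨c, κ, M₀, ρ₀, hc, hκ, hM₀, hρ₀, h⟩ := groundM Pool.Agent.J6H47.BG.su
    Pool.Agent.J6H53.BG.tu (Pool.Agent.J6H3.BG.t_GMU Pool.Agent.J6H35.BG.t_NB)
    (Pool.Agent.J6H8.BG.eu Pool.Agent.J6H35.BG.t_UP) hm hvm hv h0 he hV hy hε
  refine ⟨c, κ, M₀, ρ₀, hc, hκ, hM₀, hρ₀, fun ρ hρ hρρ M hM => ?_⟩
  obtain ⟨N₀, h1⟩ := h ρ hρ hρρ M hM
  refine ⟨N₀, fun N hN ℓ hℓ hNℓ ψ hψ hψ1 hE => ?_⟩
  exact concl hψ hψ1 (mul_nonneg hκ.le (Real.sqrt_nonneg M)) (h1 N hN ℓ hℓ hNℓ ψ hψ hψ1 hE)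

end Pool.Agent.Results.MP_4952d6_mp.GroundStateDepletion
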