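import Pool.Agent.J6H80.BG.Fin3
import Pool.Agent.J6H47.BG.SU
import Pool.Agent.J6H48.BG.Lat
import Pool.Agent.J6H76.BG.SL

/-!
# Sharp condensate depletion and momentum distribution of the dilute Bose gas with an infrared gap

Setting: `N` particles of mass `m` in the periodic box of side `ℓ`, pair interaction `v ≥ 0`,
`v` integrable and even (no hard core), density `ρ = N / ℓ ^ 3`, and the additional energy `Δ` for
every particle whose momentum `2π n/ℓ` has its label `n` in a set `D` of nonzero labels. The set `D`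
is symmetric and contains at least all `n ≠ 0` with `p² / 2m ≤ M Δ`, `p = 2π n/ℓ`; it may be equal
to this finite set of small momenta, or to the set of all nonzero momenta.

Positions are written in the rescaled variable `y = x / ℓ`, so that an `N`-particle state is a
function `ψ : Cfg N → ℂ` on `(ℝ³/ℤ³)^N`, with normalised Haar measure. With
`ψ = ∑_M (coef ψ M) e^{2πi ∑_j M_j · y_j}`,

* `kinE q ψ = ∑_M (∑_j q |M_j|²) |coef ψ M|²`,
* `perPot v ℓ` is the periodisation of `v` on the box of side `ℓ` (in the variable `y`),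
* `potE W ψ = ∫ ∑_{i<j} W (y_i - y_j) |ψ|²`,
* `occE ψ P = ∑_M #{j | P M_j} |coef ψ M|²` is the expected number of particles whose momentum
  label satisfies `P`; for `P n ↔ n = 0` it is `∑_j ⟨ψ, P_j ψ⟩`, the number of particles in the
  condensate,
* `gapE m v ℓ Δ D ψ = kinE ((1 / 2m) (2π/ℓ)²) ψ + potE (perPot v ℓ) ψ + Δ occE ψ (· ∈ D)` is the
  quadratic form of `H_N + Δ N_D`,
* `scatLen m v = (m / 4π) inf ∫ ((1/m) |∇ f|² + v f²)` over the smooth `f : ℝ³ → ℝ` equal to one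
  outside a bounded set, the scattering length `a`.

Proof modules by several authors: the library `Pool.Agent.H751R2.LHY` (see there), `J6H80.BG`, and
the two-body and lattice estimates in `J6H47.BG`, `J6H48.BG`, `J6H76.BG`.
-/

set_option autoImplicit false

open MeasureTheory UnitAddTorus
open scoped ENNReal

namespace Pool.Agent.Results.MP_4952d6_mp.InfraredGap

open Pool.Agent.H751R2.LHY Pool.Agent.H751R2.LHY.G80

/-- **Sharp depletion with an infrared gap.**  Let `a = scatLen m v`. For every `ε > 0` there are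
`K, M, δ, c > 0` such that for all `ρ, Δ > 0` with `K ρ ≤ Δ ≤ δ`, all large `N`, and all admissible
sets `D`, every normalised state whose energy exceeds the infimum by at most `c ρ √Δ N` has
* momentum distribution `n_p = ((2π a ρ / m) / (p²/2m + Δ))²`, `p ≠ 0`, in the sense that the
  expected number of particles with momentum in `S` is the sum over `S` up to `ε (ρ/√Δ) N`, for
  every symmetric set `S` of nonzero momenta,
* `√2 π a² ρ / √(m Δ) N` particles outside the condensate, up to `ε (ρ/√Δ) N`. -/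
theorem result (m : ℝ) (hm : 0 < m) (v : (Fin 3 → ℝ) → ℝ) (hvm : Measurable v)
    (hv : Integrable v) (h0 : ∀ x, 0 ≤ v x) (he : ∀ x, v (-x) = v x) (hV : 0 < ∫ x, v x) :
    0 < scatLen m v ∧ ∀ ε : ℝ, 0 < ε →
    ∃ K M δ c : ℝ, 0 < K ∧ 0 < M ∧ 0 < δ ∧ 0 < c ∧ ∀ ρ Δ : ℝ, 0 < ρ → K * ρ ≤ Δ → Δ ≤ δ →
      ∃ N₀ : ℕ, ∀ N : ℕ, N₀ ≤ N → ∀ ℓ : ℝ, 0 < ℓ → (N : ℝ) = ρ * ℓ ^ 3 →
      ∀ (D : Set Mom) [DecidablePred (· ∈ D)], 0 ∉ D → (∀ n ∈ D, -n ∈ D) →
      (∀ n : Mom, n ≠ 0 →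
        1 / (2 * m) * (2 * Real.pi / ℓ) ^ 2 * (∑ a, (n a : ℝ) ^ 2) ≤ M * Δ → n ∈ D) →
      ∀ ψ : Cfg N → ℂ, MemLp ψ 2 → ∫ x, ‖ψ x‖ ^ 2 = 1 →
      (∀ φ : Cfg N → ℂ, MemLp φ 2 → ∫ x, ‖φ x‖ ^ 2 = 1 →
        gapE m v ℓ Δ D ψ ≤ gapE m v ℓ Δ D φ + ENNReal.ofReal (c * (ρ * √Δ) * N)) →
      (∀ (S : Set Mom) [DecidablePred (· ∈ S)], 0 ∉ S → (∀ n ∈ S, -n ∈ S) →
        |(occE ψ (· ∈ S)).toReal - ∑' n : Mom, (if n ∈ S then
          (2 * Real.pi * scatLen m v * ρ / m /
            (1 / (2 * m) * (2 * Real.pi / ℓ) ^ 2 * (∑ a, (n a : ℝ) ^ 2) + Δ)) ^ 2 else 0)| ≤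
          ε * (ρ / √Δ) * N) ∧
      |(N - (occE ψ (fun n => n = 0)).toReal) -
          √2 * Real.pi * scatLen m v ^ 2 * ρ / √(m * Δ) * N| ≤ ε * (ρ / √Δ) * N :=
  gapped2 Pool.Agent.J6H48.BG.lat Pool.Agent.J6H76.BG.t_SL Pool.Agent.J6H47.BG.su hm hvm hv h0 he hV

end Pool.Agent.Results.MP_4952d6_mp.InfraredGap
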