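import Pool.Agent.J6H80.BG.GapF
import Pool.Agent.J6H47.BG.SU
import Pool.Agent.J6H35.BG.NB
import Pool.Agent.J6H3.BG.GMU
import Pool.Agent.J6H53.BG.TU
import Pool.Agent.J6H35.BG.UP
import Pool.Agent.J6H62.BG.EUK

/-!
# Condensation with a depletion of Lee-Huang-Yang order for a gap of more than two chemical
potentials

Setting: the model of the problem without hard core, with an additional energy `k ρ g`,
`g = 4π a / m`, for every particle with a momentum in `D`, where `D` is any set of nonzero momenta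
which contains those with `|p|² ≤ M ρ a`. `N` particles of mass `m` in the periodic box of side `ℓ`,
density `ρ = N / ℓ ^ 3`, pair interaction `v ≥ 0`, `v` integrable, even and not zero. (`ρ g` is the
chemical potential to leading order.)

Positions are written in the rescaled variable `y = x / ℓ`, so that an `N`-particle state is a
function `ψ : Cfg N → ℂ` on `(ℝ³/ℤ³)^N`, with normalised Haar measure. With
`ψ = ∑_M (coef ψ M) e^{2πi ∑_j M_j · y_j}`,

* `kinE q ψ = ∑_M (∑_j q |M_j|²) |coef ψ M|²`,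
* `perPot v ℓ` is the periodisation of `v` on the box of side `ℓ` (in the variable `y`),
* `potE W ψ = ∫ ∑_{i<j} W (y_i - y_j) |ψ|²`,
* `kinE ((1 / 2m) (2π/ℓ)²) ψ + potE (perPot v ℓ) ψ` is the quadratic form of the Hamiltonian `H_N`
  of the problem (`∞` outside the form domain),
* `occE ψ P = ∑_M #{j | P M_j} |coef ψ M|²` is the expected number of particles whose momentum
  label satisfies `P`; for `P n ↔ n = 0` it is `∑_j ⟨ψ, P_j ψ⟩`, the number of particles in the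
  condensate,
* `gapE m v ℓ Δ D ψ` is the form of `H_N` plus `Δ occE ψ (· ∈ D)`,
* `scatG m v` is the infimum of `∫ ((1/m) |∇ f|² + v f²)` over the smooth `f : ℝ³ → ℝ` equal to one
  outside a bounded set, and `scatLen m v = (m / 4π) scatG m v` is the scattering length `a`.

Let `λ = √(8π k + 4 m ∫ v / a)` and `B(y) = y + 1 + 1/(4y)`; `B ≥ 2`, with equality for `y = 1/2`. Let the
energy of `ψ` exceed the infimum by at most `c ρ^{3/2} N`. If `B(y) < k` then the number of the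
particles outside the condensate is at most `((λ - √(8π y)) / (2 (k - B(y))) + ε) √(ρ a³) N`; if
`B(y) > k` then it is at least `((√(8π y) - λ) / (2 (B(y) - k)) - ε) √(ρ a³) N`. So for every
`k > 2` the depletion is between two explicit multiples of `√(ρ a³)`, at small density in the
thermodynamic limit. Both multiples are `(1 + o(1)) √(π / (2k))` for `k → ∞` and optimal `y`. For
instance, for `k = 3` and weak potentials (`m ∫ v / a` near `4π`) they are `0.30` (`y = 12`) and `3.72`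
(`y = 0.65`).

Proof: the inequality
`H_N + (B(y) + ε) ρ g N_≤ - κ √M ρ g N_> ≥ ½ ρ g (1 + (√(8π y) - ε) √(ρ a³)) N` for all states
(`J6H80.BG.UnivL`; `N_≤`, `N_>` are the numbers of particles with `0 < |p|² ≤ M ρ a` and with
`|p|² > M ρ a`), and an upper bound for the infimum from quasi-free states.

Proof modules by several authors: the library `Pool.Agent.H751R2.LHY` (see there), `J6H80.BG`, and
`J6H3.BG`, `J6H8.BG`, `J6H17.BG`, `J6H35.BG`, `J6H47.BG`, `J6H48.BG`, `J6H53.BG`, `J6H62.BG`,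
`J6H70.BG`, `J6H76.BG`, `J6H92.BG`.
-/

set_option autoImplicit false

open MeasureTheory UnitAddTorus
open scoped ENNReal

namespace Pool.Agent.Results.MP_4952d6_mp.ModerateGap

open Pool.Agent.H751R2.LHY Pool.Agent.H751R2.LHY.G80 Pool.Agent.J6H80.BG

/-- **Two-sided bounds for the depletion in the model with a gap of `k` chemical potentials.** -/
theorem result (m : ℝ) (hm : 0 < m) (v : (Fin 3 → ℝ) → ℝ)
    (hvm : Measurable v) (hv : Integrable v) (h0 : ∀ x, 0 ≤ v x) (he : ∀ x, v (-x) = v x)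
    (hV : 0 < ∫ x, v x) (k y ε : ℝ) (hk : 0 ≤ k) (hy : 0 < y) (hky : k ≠ y + 1 + 1 / (4 * y))
    (hε : 0 < ε) :
    0 < scatLen m v ∧
    ∃ c M ρ₀ : ℝ, 0 < c ∧ 0 < M ∧ 0 < ρ₀ ∧
      ∀ ρ : ℝ, 0 < ρ → ρ ≤ ρ₀ →
      ∃ N₀ : ℕ, ∀ N : ℕ, N₀ ≤ N → ∀ ℓ : ℝ, 0 < ℓ → (N : ℝ) = ρ * ℓ ^ 3 →
      ∀ (D : Set Mom) [DecidablePred (· ∈ D)], 0 ∉ D →
      (∀ n : Mom, n ≠ 0 →
        (2 * Real.pi / ℓ) ^ 2 * (∑ a, (n a : ℝ) ^ 2) ≤ M * ρ * scatLen m v → n ∈ D) →
      ∀ ψ : Cfg N → ℂ, MemLp ψ 2 → ∫ x, ‖ψ x‖ ^ 2 = 1 →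
      (∀ φ : Cfg N → ℂ, MemLp φ 2 → ∫ x, ‖φ x‖ ^ 2 = 1 →
        gapE m v ℓ (k * (4 * Real.pi * scatLen m v * ρ / m)) D ψ ≤
          gapE m v ℓ (k * (4 * Real.pi * scatLen m v * ρ / m)) D φ +
          ENNReal.ofReal (c * (ρ * √ρ) * N)) →
      (y + 1 + 1 / (4 * y) < k →
        N - (occE ψ (fun n => n = 0)).toReal ≤
        ((√(8 * Real.pi * k + 4 * m * (∫ x, v x) / scatLen m v) - √(8 * Real.pi * y)) /
          (2 * (k - (y + 1 + 1 / (4 * y)))) + ε) * √(ρ * scatLen m v ^ 3) * N) ∧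
      (k < y + 1 + 1 / (4 * y) →
        ((√(8 * Real.pi * y) - √(8 * Real.pi * k + 4 * m * (∫ x, v x) / scatLen m v)) /
          (2 * (y + 1 + 1 / (4 * y) - k)) - ε) * √(ρ * scatLen m v ^ 3) * N ≤
        N - (occE ψ (fun n => n = 0)).toReal) := by
  refine ⟨?_, ?_⟩
  · have h1 := scatG_pos Pool.Agent.J6H47.BG.su hm hvm hv h0 he hV
    have h2 := Real.pi_pos
    rw [scatLen]
    positivity
  obtain ⟨c, M, ρ₀, hc, hM, hρ₀, h⟩ := gapF Pool.Agent.J6H47.BG.su
    Pool.Agent.J6H53.BG.tu (Pool.Agent.J6H3.BG.t_GMU Pool.Agent.J6H35.BG.t_NB)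
    (Pool.Agent.J6H62.BG.euk Pool.Agent.J6H35.BG.t_UP) hm hvm hv h0 he hV hk hy hky hε
  refine ⟨c, M, ρ₀, hc, hM, hρ₀, fun ρ hρ hρρ => ?_⟩
  obtain ⟨N₀, h1⟩ := h ρ hρ hρρ
  refine ⟨N₀, fun N hN ℓ hℓ hNℓ D _ hD0 hDl ψ hψ hψ1 hE => ?_⟩
  exact (h1 N hN ℓ hℓ hNℓ D hD0 hDl ψ hψ hψ1 hE).symm

end Pool.Agent.Results.MP_4952d6_mp.ModerateGap
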